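import Pool.Agent.Helper16.KS.Basic
import Pool.Agent.Helper33.KS.CM

/-!
# Project KS: the initial cell
-/

set_option autoImplicit false
open scoped Classical
open Filter Topology

namespace Pool.Agent.Helper72.KS

open Pool.Agent.Helper16.KS

/-! ### growth -/

theorem exists_growth (b : ℝ) (hb : 0 < b) (C : ℝ) (n : ℕ) :
    ∃ K : ℕ, ∀ k : ℕ, K ≤ k → C * (k : ℝ) ^ n ≤ (2 : ℝ) ^ (b * (k : ℝ)) := by
  have hr : 1 < (2 : ℝ) ^ b := Real.one_lt_rpow (by norm_num) hb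
  have h1 := tendsto_pow_const_div_const_pow_of_one_lt n hr
  have h2 := h1.const_mul C
  rw [mul_zero] at h2
  obtain ⟨K, hK⟩ := eventually_atTop.mp (h2.eventually (gt_mem_nhds (show (0 : ℝ) < 1 by norm_num)))
  refine ⟨K, fun k hk => ?_⟩
  have h3 := hK k hk
  have h4 : (0 : ℝ) < ((2 : ℝ) ^ b) ^ k := by positivity
  rw [← mul_div_assoc, div_lt_one h4] at h3
  rw [Real.rpow_mul (by norm_num), Real.rpow_natCast]
  exact h3.le

/-! ### primes in a block -/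

theorem card_badc_le (S : Sys) {k : ℕ} (hk : S.K ≤ k) :
    ((S.badc k).card : ℝ) ≤ 3 * (2 : ℝ) ^ (0.22 * (k : ℝ)) := by
  have h1 : (S.badc k).card ≤ ∑ i : Fin 3, ((Finset.range (nc S.d k)).filter
      (fun j => S.bad k j ∧ S.cls k j = i)).card := by
    have h2 : S.badc k ⊆ (Finset.univ : Finset (Fin 3)).biUnion (fun i =>
        (Finset.range (nc S.d k)).filter (fun j => S.bad k j ∧ S.cls k j = i)) := by
      intro j hj
      rw [S.mem_badc] at hj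
      simp only [Finset.mem_biUnion, Finset.mem_univ, true_and, Finset.mem_filter, Finset.mem_range]
      exact ⟨S.cls k j, hj.1, hj.2, rfl⟩
    exact (Finset.card_le_card h2).trans Finset.card_biUnion_le
  have h3 : ((S.badc k).card : ℝ) ≤ ∑ i : Fin 3, (((Finset.range (nc S.d k)).filter
      (fun j => S.bad k j ∧ S.cls k j = i)).card : ℝ) := by exact_mod_cast h1
  refine h3.trans ?_
  have h4 : ∀ i ∈ (Finset.univ : Finset (Fin 3)), (((Finset.range (nc S.d k)).filter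
      (fun j => S.bad k j ∧ S.cls k j = i)).card : ℝ) ≤ (2 : ℝ) ^ (0.22 * (k : ℝ)) := by
    intro i _
    refine (S.few k hk i).trans ?_
    refine Real.rpow_le_rpow_of_exponent_le (by norm_num) ?_
    exact mul_le_mul_of_nonneg_right (S.u_le i) (Nat.cast_nonneg _)
  refine (Finset.sum_le_sum h4).trans ?_
  simp

theorem primes_block (S : Sys) : ∃ K0 : ℕ, ∀ k : ℕ, K0 ≤ k →
    S.c1 / 2 * 2 ^ k / k ≤ (((Finset.Ico (2 ^ k) (2 ^ (k + 1))).filter Nat.Prime).card : ℝ) := by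
  obtain ⟨K1, hK1⟩ := exists_growth 0.28 (by norm_num) 6 0
  refine ⟨max K1 (max S.K 1), fun k hk => ?_⟩
  simp only [max_le_iff] at hk
  obtain ⟨a1, a2, a3⟩ := hk
  have hkpos : (0 : ℝ) < k := by exact_mod_cast a3
  have hg := hK1 k a1
  simp only [pow_zero, mul_one] at hg
  -- number of good cells
  set Gd : Finset ℕ := (Finset.range (nc S.d k)).filter (fun j => ¬ S.bad k j) with hGd
  have hc0 : (S.badc k).card + Gd.card = nc S.d k := by
    have := Finset.card_filter_add_card_filter_not (s := Finset.range (nc S.d k)) (fun j => S.bad k j)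
    rw [Finset.card_range] at this
    exact this
  have hec : (ec S.d k : ℝ) ≤ (k : ℝ) / 2 := by
    unfold ec
    have h1 : (0 : ℝ) ≤ (k : ℝ) * (1 / 2 - S.d) := by
      have := S.d_le'
      have : (0:ℝ) ≤ 1/2 - S.d := by
        norm_num at this ⊢
        linarith
      positivity
    refine (Nat.floor_le h1).trans ?_
    have := S.d_pos
    nlinarith
  have hnc : (2 : ℝ) ^ ((k : ℝ) / 2) ≤ (nc S.d k : ℝ) := by
    unfold nc
    have h1 : ((k - ec S.d k : ℕ) : ℝ) = (k : ℝ) - (ec S.d k : ℝ) := by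
      rw [Nat.cast_sub (ec_le S.d S.d_pos k)]
    push_cast
    rw [← Real.rpow_natCast, h1]
    refine Real.rpow_le_rpow_of_exponent_le (by norm_num) ?_
    linarith
  have hbad := card_badc_le S a2
  have hbad2 : 3 * (2 : ℝ) ^ (0.22 * (k : ℝ)) ≤ (2 : ℝ) ^ ((k : ℝ) / 2) / 2 := by
    have h1 : (2 : ℝ) ^ ((k : ℝ) / 2) = (2 : ℝ) ^ (0.28 * (k : ℝ)) * (2 : ℝ) ^ (0.22 * (k : ℝ)) := by
      rw [← Real.rpow_add (by norm_num)]
      congr 1
      ring
    rw [h1]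
    have h2 : 0 ≤ (2 : ℝ) ^ (0.22 * (k : ℝ)) := by positivity
    nlinarith
  have hgood : (nc S.d k : ℝ) / 2 ≤ Gd.card := by
    have h1 : ((S.badc k).card : ℝ) + (Gd.card : ℝ) = (nc S.d k : ℝ) := by exact_mod_cast hc0
    linarith
  -- the primes of the good cells
  have hdisj : ∀ j ∈ Gd, ∀ j' ∈ Gd, j ≠ j' →
      Disjoint ((cell S.d k j).filter Nat.Prime) ((cell S.d k j').filter Nat.Prime) := by
    intro j hj j' hj' hne
    rw [Finset.disjoint_left]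
    intro n hn hn'
    rw [Finset.mem_filter] at hn hn'
    rw [hGd, Finset.mem_filter, Finset.mem_range] at hj hj'
    exact hne ((S.cell_disj hj.1 hj'.1 hn.1 hn'.1).2).symm
  have hsub : Gd.biUnion (fun j => (cell S.d k j).filter Nat.Prime) ⊆
      (Finset.Ico (2 ^ k) (2 ^ (k + 1))).filter Nat.Prime := by
    intro n hn
    rw [Finset.mem_biUnion] at hn
    obtain ⟨j, hj, hn⟩ := hn
    rw [Finset.mem_filter] at hn ⊢
    rw [hGd, Finset.mem_filter, Finset.mem_range] at hj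
    rw [Finset.mem_Ico]
    exact ⟨⟨cell_ge hn.1, cell_lt S.d_pos hj.1 hn.1⟩, hn.2⟩
  have hcard := Finset.card_le_card hsub
  rw [Finset.card_biUnion hdisj] at hcard
  have hcard' : ∑ j ∈ Gd, (npr S.d k j : ℝ) ≤
      (((Finset.Ico (2 ^ k) (2 ^ (k + 1))).filter Nat.Prime).card : ℝ) := by
    have h1 : ∑ j ∈ Gd, (npr S.d k j : ℝ) =
        ((∑ j ∈ Gd, ((cell S.d k j).filter Nat.Prime).card : ℕ) : ℝ) := by
      push_cast
      rfl
    rw [h1]
    exact_mod_cast hcard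
  refine le_trans ?_ hcard'
  have hlow : ∀ j ∈ Gd, S.c1 * 2 ^ ec S.d k / k ≤ (npr S.d k j : ℝ) := by
    intro j hj
    rw [hGd, Finset.mem_filter, Finset.mem_range] at hj
    exact S.good k a2 j hj.1 hj.2
  have hsum := Finset.card_nsmul_le_sum Gd _ _ hlow
  rw [nsmul_eq_mul] at hsum
  refine le_trans ?_ hsum
  have h2 : (2 : ℝ) ^ k = (nc S.d k : ℝ) * 2 ^ ec S.d k := by
    unfold nc
    push_cast
    rw [← pow_add, Nat.sub_add_cancel (ec_le S.d S.d_pos k)]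
  have hc1 := S.c1_pos
  have h3 : 0 ≤ S.c1 * 2 ^ ec S.d k / (k : ℝ) := by positivity
  calc S.c1 / 2 * 2 ^ k / k = (nc S.d k : ℝ) / 2 * (S.c1 * 2 ^ ec S.d k / k) := by
        rw [h2]
        ring
    _ ≤ _ := mul_le_mul_of_nonneg_right hgood h3

theorem G0_ge (S : Sys) : ∃ K0 : ℕ, 2 ≤ K0 ∧ ∀ k0 : ℕ, K0 ≤ k0 →
    S.c1 / 4 * ((2 : ℝ) ^ (S.s * (k0 : ℝ)) / (k0 : ℝ) ^ 4) ≤ S.G0 k0 := by
  obtain ⟨K1, hK1⟩ := primes_block S
  refine ⟨max (K1 + 1) 2, le_max_right _ _, fun k0 hk => ?_⟩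
  simp only [max_le_iff] at hk
  obtain ⟨a1, a2⟩ := hk
  obtain ⟨k, rfl⟩ : ∃ k, k0 = k + 1 := ⟨k0 - 1, by omega⟩
  have h1 := hK1 k (by omega)
  have hk1 : (1 : ℝ) ≤ k := by exact_mod_cast (by omega : 1 ≤ k)
  unfold Sys.G0 Sys.phi0
  rw [Nat.add_sub_cancel]
  have hc1 := S.c1_pos
  have h3 : S.c1 / 4 * ((2 : ℝ) ^ (k + 1) / ((k + 1 : ℕ) : ℝ)) ≤ S.c1 / 2 * 2 ^ k / k := by
    rw [pow_succ]
    push_cast
    have h4 : (2 : ℝ) ^ k * 2 / (k + 1) ≤ 2 ^ k * 2 / k := by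
      gcongr
      linarith
    calc S.c1 / 4 * (2 ^ k * 2 / (k + 1)) ≤ S.c1 / 4 * (2 ^ k * 2 / k) := by gcongr
      _ = S.c1 / 2 * 2 ^ k / k := by ring
  have h5 : (2 : ℝ) ^ (S.s * ((k + 1 : ℕ) : ℝ)) =
      (2 : ℝ) ^ ((S.s - 1) * ((k + 1 : ℕ) : ℝ)) * (2 : ℝ) ^ (k + 1) := by
    rw [← Real.rpow_natCast 2 (k + 1), ← Real.rpow_add (by norm_num)]
    congr 1
    ring
  have hpos : (0 : ℝ) < ((k + 1 : ℕ) : ℝ) := by positivity
  calc S.c1 / 4 * ((2 : ℝ) ^ (S.s * ((k + 1 : ℕ) : ℝ)) / ((k + 1 : ℕ) : ℝ) ^ 4)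
      = (2 : ℝ) ^ ((S.s - 1) * ((k + 1 : ℕ) : ℝ)) / ((k + 1 : ℕ) : ℝ) ^ 3 *
        (S.c1 / 4 * ((2 : ℝ) ^ (k + 1) / ((k + 1 : ℕ) : ℝ))) := by
        rw [h5]
        field_simp
    _ ≤ _ := by
        refine mul_le_mul_of_nonneg_left (h3.trans h1) ?_
        positivity

/-! ### the part of the weight coming from `R` and from the control primes -/

/-- `R`- and control part of the majorant at primes -/
noncomputable def gg (S : Sys) (k0 : ℕ) (R : Set ℕ) (p : ℕ) : ℝ :=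
  S.bR R p + 2 * S.ctl k0 (top p) R p

theorem gg_nonneg (S : Sys) (k0 : ℕ) (R : Set ℕ) (p : ℕ) : 0 ≤ gg S k0 R p := by
  have h1 := S.bR_nonneg R p
  have h3 := S.ctl_nonneg k0 (top p) R p
  unfold gg
  positivity

theorem W_le_init (S : Sys) (k0 : ℕ) (hk0 : 1 ≤ k0) (R : Set ℕ) {n : ℕ} (h2 : 2 ≤ n)
    (hn : n < 2 ^ k0) :
    S.W k0 R n = CM (gg S k0 R) n +
      (if n.Prime ∧ 2 ^ (k0 - 1) ≤ n then 2 * S.phi0 k0 else 0) := by
  have hpow : 2 ^ k0 = 2 * 2 ^ (k0 - 1) := by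
    obtain ⟨k, rfl⟩ : ∃ k, k0 = k + 1 := ⟨k0 - 1, by omega⟩
    rw [Nat.add_sub_cancel, pow_succ]
    ring
  unfold Sys.W
  by_cases hp : n.Prime
  · rw [CM_prime _ hp, CM_prime _ hp]
    unfold Sys.Wp gg Sys.ordw
    by_cases h3 : n < 2 ^ (k0 - 1)
    · rw [if_pos h3, if_neg (by rintro ⟨_, h4⟩; omega)]
      ring
    · rw [if_neg h3, if_pos hn, if_pos ⟨hp, not_lt.mp h3⟩]
      ring
  · rw [if_neg (by rintro ⟨h4, _⟩; exact hp h4), add_zero]
    refine CM_congr fun p hpp hpn => ?_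
    have h5 : p < 2 ^ (k0 - 1) := by
      obtain ⟨m, rfl⟩ := hpn
      have hm : m ≠ 1 := by
        rintro rfl
        rw [mul_one] at hp
        exact hp hpp
      have hm0 : m ≠ 0 := by
        rintro rfl
        omega
      have hm2 : 2 ≤ m := by omega
      have : p * 2 ≤ p * m := Nat.mul_le_mul_left p hm2
      omega
    unfold Sys.Wp gg Sys.ordw
    rw [if_pos h5]
    ring

theorem CM_eq_cm (F : ℕ → ℝ) {n : ℕ} (hn : n ≠ 0) : CM F n = Pool.Agent.Helper33.KS.cm F n := by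
  rw [CM_eq_prod, Pool.Agent.Helper33.KS.cm_apply F hn]
  rfl

/-- mass of the `R`-part and the control part -/
theorem mass_gg (hWo : WoLe) (S : Sys) : ∃ K0 : ℕ, ∀ k0 : ℕ, K0 ≤ k0 → ∀ R : Set ℕ, S.Good k0 R →
    ∑ p ∈ (Finset.range (2 ^ k0)).filter Nat.Prime, gg S k0 R p * (p : ℝ) ^ (-S.s) ≤
      2 * (2 : ℝ) ^ (-(S.tau / 10) * (k0 : ℝ)) := by
  obtain ⟨K1, hK1⟩ := hWo S
  have hbpos : 0 < S.c / 4 - S.tau / 10 := by
    have h1 := S.tau_le
    have h2 := S.c_pos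
    have h3 := S.d_le'
    have h4 : S.c * S.d ≤ S.c * 1 := by
      refine mul_le_mul_of_nonneg_left ?_ h2.le
      norm_num at h3
      linarith
    have h5 : S.c * S.d / 10 ^ 5 ≤ S.c * 1 / 10 ^ 5 := div_le_div_of_nonneg_right h4 (by positivity)
    norm_num at h5 h1
    linarith
  obtain ⟨K2, hK2⟩ := exists_growth (S.c / 4 - S.tau / 10) hbpos (4 / S.c1 * 5) 1
  refine ⟨max (max K1 K2) (max 1 S.K), fun k0 hk R hR => ?_⟩
  simp only [max_le_iff] at hk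
  obtain ⟨⟨a1, a2⟩, a3, a4⟩ := hk
  have hc1 := S.c1_pos
  set P : Finset ℕ := (Finset.range (2 ^ k0)).filter Nat.Prime with hP
  -- the R-part
  have hRpart : ∑ p ∈ P, S.bR R p * (p : ℝ) ^ (-S.s) ≤ (2 : ℝ) ^ (-(S.tau / 10) * (k0 : ℝ)) := by
    have h1 := hR.massR (P.filter (fun p => p ∈ R)) (fun r hr => (Finset.mem_filter.mp hr).2)
    refine le_trans ?_ h1
    rw [Finset.sum_filter (s := P) (p := fun p => p ∈ R)]
    apply Finset.sum_le_sum
    intro p hp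
    unfold Sys.bR
    by_cases hpR : p ∈ R
    · rw [if_pos hpR, if_pos hpR]
      have hp1 : 1 ≤ p := (Finset.mem_filter.mp hp).2.one_lt.le
      have h2 : 0 ≤ Real.log p := Real.log_natCast_nonneg p
      have h3 : 0 ≤ S.base p * (p : ℝ) ^ (-S.s) :=
        mul_nonneg (S.base_nonneg p) (Real.rpow_nonneg (Nat.cast_nonneg _) _)
      have h4 : (1 : ℝ) ≤ (1 + Real.log p) ^ 2 := by nlinarith
      nlinarith
    · rw [if_neg hpR, if_neg hpR, zero_mul]
  -- the control part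
  have hCpart : ∑ p ∈ P, 2 * S.ctl k0 (top p) R p * (p : ℝ) ^ (-S.s) ≤
      (2 : ℝ) ^ (-(S.tau / 10) * (k0 : ℝ)) := by
    have htop : ∀ p ∈ P, top p ≤ 3 * (k0 + 1) := by
      intro p hp
      rw [hP, Finset.mem_filter, Finset.mem_range] at hp
      unfold top
      have : Nat.log 2 p < k0 := Nat.log_lt_of_lt_pow hp.2.ne_zero hp.1
      omega
    have h1 : ∀ p ∈ P, 2 * S.ctl k0 (top p) R p * (p : ℝ) ^ (-S.s) ≤
        ∑ k ∈ Finset.Ico k0 (3 * (k0 + 1)), ∑ j ∈ S.badc k,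
          ∑ x ∈ (S.act R k j).filter (fun x => x.1 = p),
            2 * (S.wo R k j x.2 * (x.1 : ℝ) ^ (-S.s)) := by
      intro p hp
      have h2 := S.ctl_mono (k0 := k0) (htop p hp) R p
      have h3 : 0 ≤ (p : ℝ) ^ (-S.s) := Real.rpow_nonneg (Nat.cast_nonneg _) _
      have h4 : 2 * S.ctl k0 (top p) R p * (p : ℝ) ^ (-S.s) ≤
          2 * S.ctl k0 (3 * (k0 + 1)) R p * (p : ℝ) ^ (-S.s) := by
        refine mul_le_mul_of_nonneg_right ?_ h3
        linarith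
      refine h4.trans (le_of_eq ?_)
      unfold Sys.ctl Sys.cw
      rw [mul_assoc, Finset.sum_mul, Finset.mul_sum]
      refine Finset.sum_congr rfl fun k _ => ?_
      rw [Finset.sum_mul, Finset.mul_sum]
      refine Finset.sum_congr rfl fun j _ => ?_
      rw [Finset.sum_mul, Finset.mul_sum]
      refine Finset.sum_congr rfl fun x hx => ?_
      rw [(Finset.mem_filter.mp hx).2]
    refine (Finset.sum_le_sum h1).trans ?_
    rw [Finset.sum_comm]
    have h5 : ∀ k ∈ Finset.Ico k0 (3 * (k0 + 1)),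
        ∑ p ∈ P, ∑ j ∈ S.badc k, ∑ x ∈ (S.act R k j).filter (fun x => x.1 = p),
          2 * (S.wo R k j x.2 * (x.1 : ℝ) ^ (-S.s)) ≤
        4 / S.c1 * (2 : ℝ) ^ (-(S.c / 4) * (k0 : ℝ)) := by
      intro k hk
      rw [Finset.mem_Ico] at hk
      rw [Finset.sum_comm]
      have h6 : ∀ j ∈ S.badc k, ∑ p ∈ P, ∑ x ∈ (S.act R k j).filter (fun x => x.1 = p),
          2 * (S.wo R k j x.2 * (x.1 : ℝ) ^ (-S.s)) ≤
          ∑ x ∈ S.act R k j, 2 * (S.wo R k j x.2 * (x.1 : ℝ) ^ (-S.s)) := by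
        intro j _
        refine (Finset.sum_le_sum_of_subset_of_nonneg (s := P)
          (t := P ∪ (S.act R k j).image (fun x => x.1)) Finset.subset_union_left
          (fun p _ _ => Finset.sum_nonneg fun x _ => ?_)).trans (le_of_eq ?_)
        · have := S.wo_nonneg R k j x.2
          positivity
        · exact Finset.sum_fiberwise_of_maps_to (fun x hx => Finset.mem_union_right _
            (Finset.mem_image_of_mem _ hx)) _
      refine (Finset.sum_le_sum h6).trans ?_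
      have h7 : ∀ j ∈ S.badc k, ∑ x ∈ S.act R k j, 2 * (S.wo R k j x.2 * (x.1 : ℝ) ^ (-S.s)) ≤
          ∑ x ∈ S.act R k j, 4 / S.c1 * (S.wd k x.2 * (x.1 : ℝ) ^ (-S.s)) := by
        intro j hj
        refine Finset.sum_le_sum fun x hx => ?_
        have hx2 : 1 ≤ x.2 := by
          rw [S.mem_act] at hx
          exact (S.cand_facts (a4.trans hk.1) hj hx.1).2.2.2.1.le
        obtain ⟨h8, h9⟩ := hK1 k0 a1 R hR k hk.1 j hj x.2 hx2
        have h10 : 0 ≤ (x.1 : ℝ) ^ (-S.s) := Real.rpow_nonneg (Nat.cast_nonneg _) _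
        have h11 := S.wd_nonneg k x.2
        have hk1 : (1 : ℝ) ≤ (k : ℝ) ^ 2 := by
          have : (1 : ℝ) ≤ k := by exact_mod_cast a3.trans hk.1
          nlinarith
        have h12 : 2 / S.c1 / (k : ℝ) ^ 2 ≤ 2 / S.c1 := div_le_self (by positivity) hk1
        have h13 : S.wo R k j x.2 ≤ 2 / S.c1 * S.wd k x.2 :=
          h9.trans (mul_le_mul_of_nonneg_right h12 h11)
        calc 2 * (S.wo R k j x.2 * (x.1 : ℝ) ^ (-S.s)) ≤
              2 * ((2 / S.c1 * S.wd k x.2) * (x.1 : ℝ) ^ (-S.s)) := by gcongr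
          _ = 4 / S.c1 * (S.wd k x.2 * (x.1 : ℝ) ^ (-S.s)) := by ring
      refine (Finset.sum_le_sum h7).trans ?_
      simp only [← Finset.mul_sum]
      refine mul_le_mul_of_nonneg_left ?_ (by positivity)
      refine (hR.massC k hk.1).trans ?_
      refine Real.rpow_le_rpow_of_exponent_le (by norm_num) ?_
      have h14 : (k0 : ℝ) ≤ k := by exact_mod_cast hk.1
      have := S.c_pos
      nlinarith
    refine (Finset.sum_le_sum h5).trans ?_
    rw [Finset.sum_const, Nat.card_Ico, nsmul_eq_mul]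
    have h15 := hK2 k0 a2
    rw [pow_one] at h15
    have h16 : ((3 * (k0 + 1) - k0 : ℕ) : ℝ) ≤ 5 * (k0 : ℝ) := by
      have : 3 * (k0 + 1) - k0 ≤ 5 * k0 := by omega
      exact_mod_cast this
    have h17 : (2 : ℝ) ^ (-(S.tau / 10) * (k0 : ℝ)) =
        (2 : ℝ) ^ ((S.c / 4 - S.tau / 10) * (k0 : ℝ)) * (2 : ℝ) ^ (-(S.c / 4) * (k0 : ℝ)) := by
      rw [← Real.rpow_add (by norm_num)]
      congr 1
      ring
    rw [h17]
    have h18 : 0 ≤ (2 : ℝ) ^ (-(S.c / 4) * (k0 : ℝ)) := by positivity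
    calc ((3 * (k0 + 1) - k0 : ℕ) : ℝ) * (4 / S.c1 * (2 : ℝ) ^ (-(S.c / 4) * (k0 : ℝ))) ≤
          (5 * (k0 : ℝ)) * (4 / S.c1 * (2 : ℝ) ^ (-(S.c / 4) * (k0 : ℝ))) := by
          refine mul_le_mul_of_nonneg_right h16 ?_
          positivity
      _ = (4 / S.c1 * 5 * (k0 : ℝ)) * (2 : ℝ) ^ (-(S.c / 4) * (k0 : ℝ)) := by ring
      _ ≤ _ := mul_le_mul_of_nonneg_right h15 h18
  have hsplit : ∑ p ∈ P, gg S k0 R p * (p : ℝ) ^ (-S.s) =
      ∑ p ∈ P, S.bR R p * (p : ℝ) ^ (-S.s) +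
        ∑ p ∈ P, 2 * S.ctl k0 (top p) R p * (p : ℝ) ^ (-S.s) := by
    rw [← Finset.sum_add_distrib]
    refine Finset.sum_congr rfl fun p _ => ?_
    unfold gg
    ring
  rw [hsplit]
  linarith

/-- the rest of the initial cell -/
theorem rest_le (hWo : WoLe) (S : Sys) : ∃ K0 : ℕ, ∀ k0 : ℕ, K0 ≤ k0 → ∀ R : Set ℕ, S.Good k0 R →
    ∑ n ∈ Finset.Ico 2 (2 ^ k0), CM (gg S k0 R) n ≤
      8 * (2 : ℝ) ^ (-(S.tau / 10) * (k0 : ℝ)) * (2 : ℝ) ^ (S.s * (k0 : ℝ)) := by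
  obtain ⟨K1, hK1⟩ := mass_gg hWo S
  obtain ⟨K2, hK2⟩ := exists_growth (S.tau / 10) (by have := S.tau_pos; positivity) 4 0
  refine ⟨max K1 K2, fun k0 hk R hR => ?_⟩
  simp only [max_le_iff] at hk
  have hm := hK1 k0 hk.1 R hR
  have hg := hK2 k0 hk.2
  rw [pow_zero, mul_one] at hg
  set D : ℝ := (2 : ℝ) ^ (-(S.tau / 10) * (k0 : ℝ)) with hD
  have hD0 : 0 < D := by positivity
  have hD1 : D ≤ 1 / 4 := by
    have h1 : D * (2 : ℝ) ^ (S.tau / 10 * (k0 : ℝ)) = 1 := by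
      rw [hD, ← Real.rpow_add (by norm_num)]
      rw [show -(S.tau / 10) * (k0 : ℝ) + S.tau / 10 * (k0 : ℝ) = 0 by ring, Real.rpow_zero]
    nlinarith
  set F : ℕ → ℝ := fun p => if p < 2 ^ k0 then gg S k0 R p * (p : ℝ) ^ (-S.s) else 0 with hF
  have hF0 : ∀ p : ℕ, 0 ≤ F p := by
    intro p
    rw [hF]
    dsimp only
    split_ifs
    · exact mul_nonneg (gg_nonneg S k0 R p) (Real.rpow_nonneg (Nat.cast_nonneg _) _)
    · exact le_rfl
  have hsum : ∑ p ∈ (Finset.range (2 ^ k0)).filter Nat.Prime, F p ≤ 2 * D := by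
    refine le_trans (le_of_eq ?_) hm
    refine Finset.sum_congr rfl fun p hp => ?_
    rw [hF]
    dsimp only
    rw [if_pos (Finset.mem_range.mp (Finset.mem_filter.mp hp).1)]
  have hFle : ∀ p : ℕ, p.Prime → F p ≤ 1 / 2 := by
    intro p hp
    by_cases h1 : p < 2 ^ k0
    · have h2 : F p ≤ ∑ p ∈ (Finset.range (2 ^ k0)).filter Nat.Prime, F p :=
        Finset.single_le_sum (f := F) (fun q _ => hF0 q)
          (Finset.mem_filter.mpr ⟨Finset.mem_range.mpr h1, hp⟩)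
      linarith
    · rw [hF]
      dsimp only
      rw [if_neg h1]
      norm_num
  have h2k : 1 ≤ 2 ^ k0 := Nat.one_le_two_pow
  have hset : (Finset.Icc 1 (2 ^ k0 - 1)).filter Nat.Prime =
      (Finset.range (2 ^ k0)).filter Nat.Prime := by
    ext p
    simp only [Finset.mem_filter, Finset.mem_Icc, Finset.mem_range]
    constructor
    · rintro ⟨⟨_, h1⟩, h2⟩
      exact ⟨by omega, h2⟩
    · rintro ⟨h1, h2⟩
      exact ⟨⟨h2.one_lt.le, by omega⟩, h2⟩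
  have hbig := Pool.Agent.Helper33.KS.sum_cm_le' (F := F) (fun p _ => hF0 p) hFle (2 ^ k0 - 1)
  rw [hset] at hbig
  have hexp : Real.exp (2 * ∑ p ∈ (Finset.range (2 ^ k0)).filter Nat.Prime, F p) - 1 ≤ 8 * D := by
    have h1 : Real.exp (2 * ∑ p ∈ (Finset.range (2 ^ k0)).filter Nat.Prime, F p) ≤
        Real.exp (4 * D) := Real.exp_le_exp.mpr (by linarith)
    have h2 : Real.exp (4 * D) ≤ 1 + 2 * (4 * D) := by
      have h3 : |4 * D| ≤ 1 := by
        rw [abs_of_nonneg (by positivity)]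
        linarith
      have h4 := Real.abs_exp_sub_one_le h3
      rw [abs_of_nonneg (a := 4 * D) (by positivity)] at h4
      have h5 := le_abs_self (Real.exp (4 * D) - 1)
      linarith
    linarith
  have hIco : Finset.Ico 2 (2 ^ k0) = Finset.Icc 2 (2 ^ k0 - 1) := by
    ext n
    simp only [Finset.mem_Icc, Finset.mem_Ico]
    omega
  rw [hIco]
  have hterm : ∀ n ∈ Finset.Icc 2 (2 ^ k0 - 1), CM (gg S k0 R) n ≤
      Pool.Agent.Helper33.KS.cm F n * (2 : ℝ) ^ (S.s * (k0 : ℝ)) := by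
    intro n hn
    rw [Finset.mem_Icc] at hn
    have hn0 : n ≠ 0 := by omega
    have hnlt : n < 2 ^ k0 := by omega
    have h1 : CM (gg S k0 R) n = CM (fun p => F p * (p : ℝ) ^ S.s) n := by
      refine CM_congr fun p hp hpn => ?_
      have h2 : p < 2 ^ k0 := lt_of_le_of_lt (Nat.le_of_dvd (by omega) hpn) hnlt
      rw [hF]
      dsimp only
      rw [if_pos h2, mul_assoc, ← Real.rpow_add (by exact_mod_cast hp.pos), neg_add_cancel,
        Real.rpow_zero, mul_one]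
    rw [h1, CM_mul_fun, CM_rpow _ hn0, CM_eq_cm F hn0]
    refine mul_le_mul_of_nonneg_left ?_
      (Pool.Agent.Helper33.KS.cm_nonneg (fun p _ => hF0 p) n)
    have h3 : (n : ℝ) ≤ (2 : ℝ) ^ (k0 : ℝ) := by
      rw [Real.rpow_natCast]
      exact_mod_cast hnlt.le
    calc (n : ℝ) ^ S.s ≤ ((2 : ℝ) ^ (k0 : ℝ)) ^ S.s :=
          Real.rpow_le_rpow (Nat.cast_nonneg _) h3 S.s_pos.le
      _ = (2 : ℝ) ^ (S.s * (k0 : ℝ)) := by
          rw [← Real.rpow_mul (by norm_num), mul_comm]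
  refine (Finset.sum_le_sum hterm).trans ?_
  rw [← Finset.sum_mul]
  refine mul_le_mul_of_nonneg_right ?_ (by positivity)
  exact hbig.trans hexp

/-- **The initial cell.** -/
theorem init (hWo : WoLe) : Init := by
  intro S
  obtain ⟨K1, hK1⟩ := rest_le hWo S
  obtain ⟨K2, hK2, hG0⟩ := G0_ge S
  have hc1 := S.c1_pos
  obtain ⟨K3, hK3⟩ := exists_growth S.s S.s_pos (32 / S.c1) 4
  obtain ⟨K4, hK4⟩ := exists_growth (S.tau / 10) (by have := S.tau_pos; positivity)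
    (8 * 32 / S.c1) 4
  refine ⟨max (max K1 K2) (max K3 K4), fun k0 hk R hR => ?_⟩
  simp only [max_le_iff] at hk
  obtain ⟨⟨a1, a2⟩, a3, a4⟩ := hk
  have hk2 : 2 ≤ k0 := hK2.trans a2
  have h1 := hK1 k0 a1 R hR
  have h2 := hG0 k0 a2
  have h3 := hK3 k0 a3
  have h4 := hK4 k0 a4
  have hkpos : (0 : ℝ) < (k0 : ℝ) ^ 4 := by positivity
  -- the sum
  have hlt : 1 < 2 ^ k0 := Nat.one_lt_two_pow (by omega)
  have hS : ∑ n ∈ Finset.Ico 1 (2 ^ k0), S.W k0 R n =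
      1 + (∑ n ∈ Finset.Ico 2 (2 ^ k0), CM (gg S k0 R) n + 2 * S.G0 k0) := by
    rw [Finset.sum_eq_sum_Ico_succ_bot hlt, S.W_one]
    congr 1
    have h5 : ∀ n ∈ Finset.Ico (1 + 1) (2 ^ k0), S.W k0 R n = CM (gg S k0 R) n +
        (if n.Prime ∧ 2 ^ (k0 - 1) ≤ n then 2 * S.phi0 k0 else 0) := by
      intro n hn
      rw [Finset.mem_Ico] at hn
      exact W_le_init S k0 (by omega) R hn.1 hn.2
    rw [Finset.sum_congr rfl h5, Finset.sum_add_distrib]
    congr 1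
    rw [← Finset.sum_filter, Finset.sum_const, nsmul_eq_mul]
    unfold Sys.G0
    have h6 : (Finset.Ico (1 + 1) (2 ^ k0)).filter (fun n => n.Prime ∧ 2 ^ (k0 - 1) ≤ n) =
        (Finset.Ico (2 ^ (k0 - 1)) (2 ^ k0)).filter Nat.Prime := by
      ext n
      simp only [Finset.mem_filter, Finset.mem_Ico]
      constructor
      · rintro ⟨⟨_, h7⟩, h8, h9⟩
        exact ⟨⟨h9, h7⟩, h8⟩
      · rintro ⟨⟨h9, h7⟩, h8⟩
        exact ⟨⟨h8.two_le, h7⟩, h8, h9⟩
    rw [h6]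
    ring
  rw [hS]
  set A : ℝ := (2 : ℝ) ^ (S.s * (k0 : ℝ)) with hA
  have hA0 : 0 < A := by positivity
  set D : ℝ := (2 : ℝ) ^ (-(S.tau / 10) * (k0 : ℝ)) with hD
  have hD0 : 0 < D := by positivity
  have hDB : D * (2 : ℝ) ^ (S.tau / 10 * (k0 : ℝ)) = 1 := by
    rw [hD, ← Real.rpow_add (by norm_num)]
    rw [show -(S.tau / 10) * (k0 : ℝ) + S.tau / 10 * (k0 : ℝ) = 0 by ring, Real.rpow_zero]
  -- `1 ≤ (c1/32) A / k0^4`
  have e1 : 1 ≤ S.c1 / 32 * (A / (k0 : ℝ) ^ 4) := by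
    rw [← mul_div_assoc, le_div_iff₀ hkpos, one_mul]
    have : 32 / S.c1 * (k0 : ℝ) ^ 4 ≤ A := h3
    calc (k0 : ℝ) ^ 4 = S.c1 / 32 * (32 / S.c1 * (k0 : ℝ) ^ 4) := by
          field_simp
      _ ≤ S.c1 / 32 * A := mul_le_mul_of_nonneg_left this (by positivity)
  have e2 : 8 * D * A ≤ S.c1 / 32 * (A / (k0 : ℝ) ^ 4) := by
    have h5 : 8 * D ≤ S.c1 / 32 / (k0 : ℝ) ^ 4 := by
      rw [le_div_iff₀ hkpos]
      have h6 : 8 * 32 / S.c1 * (k0 : ℝ) ^ 4 * D ≤ 1 := by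
        calc 8 * 32 / S.c1 * (k0 : ℝ) ^ 4 * D ≤ (2 : ℝ) ^ (S.tau / 10 * (k0 : ℝ)) * D :=
              mul_le_mul_of_nonneg_right h4 hD0.le
          _ = 1 := by rw [mul_comm]; exact hDB
      calc 8 * D * (k0 : ℝ) ^ 4 = S.c1 / 32 * (8 * 32 / S.c1 * (k0 : ℝ) ^ 4 * D) := by
            field_simp
        _ ≤ S.c1 / 32 * 1 := mul_le_mul_of_nonneg_left h6 (by positivity)
        _ = S.c1 / 32 := mul_one _
    calc 8 * D * A ≤ S.c1 / 32 / (k0 : ℝ) ^ 4 * A := mul_le_mul_of_nonneg_right h5 hA0.le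
      _ = _ := by ring
  have e3 : S.c1 / 32 * (A / (k0 : ℝ) ^ 4) ≤ S.G0 k0 / 8 := by
    have : S.c1 / 32 * (A / (k0 : ℝ) ^ 4) = (S.c1 / 4 * (A / (k0 : ℝ) ^ 4)) / 8 := by ring
    rw [this]
    linarith
  linarith

end Pool.Agent.Helper72.KS
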